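import Pool.Agent.H412.EqN.Perfect

/-!
The basis theorem: perfect ideals of a polynomial ring in well ordered variables, on which a family
of strictly monotone maps acts with well-quasi-ordered divisibility, are finitely generated.
-/

set_option autoImplicit false

namespace Pool.Agent.H412.EqN

open MvPolynomial

section Low

variable {K V : Type*} [CommRing K] [LinearOrder V]

/-- Polynomials of degree `< d` in the variable `v` with coefficients in lower variables. -/
def Low (v : V) : ℕ → Set (MvPolynomial V K)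
  | 0 => {0}
  | d + 1 => {f | ∃ J ∈ supported K (Set.Iio v), ∃ r ∈ Low v d, f = J * X v ^ d + r}

theorem low_zero_mem (v : V) (d : ℕ) : (0 : MvPolynomial V K) ∈ Low (K := K) v d := by
  induction d with
  | zero => rfl
  | succ d ih => exact ⟨0, Subalgebra.zero_mem _, 0, ih, by simp⟩

theorem low_add {v : V} {d : ℕ} {f g : MvPolynomial V K} (hf : f ∈ Low v d) (hg : g ∈ Low v d) :
    f + g ∈ Low v d := by
  induction d generalizing f g with
  | zero =>
    obtain rfl : f = 0 := hf
    obtain rfl : g = 0 := hg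
    simpa using low_zero_mem v 0
  | succ d ih =>
    obtain ⟨J, hJ, r, hr, rfl⟩ := hf
    obtain ⟨J', hJ', r', hr', rfl⟩ := hg
    exact ⟨J + J', Subalgebra.add_mem _ hJ hJ', r + r', ih hr hr', by ring⟩

theorem low_mul {v : V} {d : ℕ} {f g : MvPolynomial V K} (hg : g ∈ supported K (Set.Iio v))
    (hf : f ∈ Low v d) : g * f ∈ Low v d := by
  induction d generalizing f with
  | zero =>
    obtain rfl : f = 0 := hf
    simpa using low_zero_mem v 0
  | succ d ih =>
    obtain ⟨J, hJ, r, hr, rfl⟩ := hf
    exact ⟨g * J, Subalgebra.mul_mem _ hg hJ, g * r, ih hr, by ring⟩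

theorem low_succ {v : V} {d : ℕ} {f : MvPolynomial V K} (hf : f ∈ Low v d) : f ∈ Low v (d + 1) :=
  ⟨0, Subalgebra.zero_mem _, f, hf, by simp⟩

theorem low_mono {v : V} {d e : ℕ} (hde : d ≤ e) {f : MvPolynomial V K} (hf : f ∈ Low v d) :
    f ∈ Low v e := by
  induction e, hde using Nat.le_induction with
  | base => exact hf
  | succ e _ ih => exact low_succ ih

theorem low_mul_X {v : V} {d : ℕ} (k : ℕ) {f : MvPolynomial V K} (hf : f ∈ Low v d) :
    X v ^ k * f ∈ Low v (d + k) := by
  induction d generalizing f with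
  | zero =>
    obtain rfl : f = 0 := hf
    simpa using low_zero_mem v (0 + k)
  | succ d ih =>
    obtain ⟨J, hJ, r, hr, rfl⟩ := hf
    rw [Nat.add_right_comm]
    exact ⟨J, hJ, X v ^ k * r, ih hr, by ring⟩

theorem low_mul_low {v : V} {d e : ℕ} {f g : MvPolynomial V K} (hf : f ∈ Low v d)
    (hg : g ∈ Low v e) : f * g ∈ Low v (d + e) := by
  induction d generalizing f with
  | zero =>
    obtain rfl : f = 0 := hf
    simpa using low_zero_mem v (0 + e)
  | succ d ih =>
    obtain ⟨J, hJ, r, hr, rfl⟩ := hf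
    have h1 : J * (X v ^ d * g) ∈ Low v (d + 1 + e) :=
      low_mono (by omega) (low_mul hJ (low_mul_X d hg))
    have h2 : r * g ∈ Low v (d + 1 + e) := low_mono (by omega) (ih hr)
    have := low_add h1 h2
    convert this using 1
    ring

theorem supported_low {v : V} {f : MvPolynomial V K} (hf : f ∈ supported K (Set.Iio v)) :
    f ∈ Low v 1 := ⟨f, hf, 0, low_zero_mem v 0, by simp⟩

theorem exists_low {v : V} {f : MvPolynomial V K} (hf : f ∈ supported K (Set.Iic v)) :
    ∃ d, f ∈ Low v d := by
  rw [supported] at hf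
  induction hf using Algebra.adjoin_induction with
  | mem x hx =>
    obtain ⟨w, hw, rfl⟩ := hx
    rcases (show w ≤ v from hw).lt_or_eq with h | rfl
    · exact ⟨1, supported_low (Algebra.subset_adjoin ⟨w, h, rfl⟩)⟩
    · exact ⟨2, 1, Subalgebra.one_mem _, 0, low_zero_mem w 1, by simp⟩
  | algebraMap r => exact ⟨1, supported_low (Subalgebra.algebraMap_mem _ r)⟩
  | add x y _ _ hx hy =>
    obtain ⟨d, hd⟩ := hx
    obtain ⟨e, he⟩ := hy
    exact ⟨max d e, low_add (low_mono (le_max_left _ _) hd) (low_mono (le_max_right _ _) he)⟩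
  | mul x y _ _ hx hy =>
    obtain ⟨d, hd⟩ := hx
    obtain ⟨e, he⟩ := hy
    exact ⟨d + e, low_mul_low hd he⟩

/-- A polynomial is constant or has a greatest variable. -/
theorem const_or_le {S : Set V} {f : MvPolynomial V K} (hf : f ∈ supported K S) :
    (∃ c, f = C c) ∨ ∃ v ∈ S, f ∈ supported K (Set.Iic v) := by
  rcases f.vars.eq_empty_or_nonempty with h | h
  · left
    exact ⟨_, vars_eq_empty_iff_eq_C.1 h⟩
  · right
    refine ⟨f.vars.max' h, mem_supported.1 hf (by simpa using Finset.max'_mem _ h), ?_⟩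
    rw [mem_supported]
    intro w hw
    exact Finset.le_max' _ _ (by simpa using hw)

theorem low_rename {v : V} {d : ℕ} {f : MvPolynomial V K} {a : V → V} (ha : StrictMono a)
    (hf : f ∈ Low v d) : rename a f ∈ Low (a v) d := by
  induction d generalizing f with
  | zero =>
    obtain rfl : f = 0 := hf
    simpa using low_zero_mem (a v) 0
  | succ d ih =>
    obtain ⟨J, hJ, r, hr, rfl⟩ := hf
    refine ⟨rename a J, ?_, rename a r, ih hr, by simp⟩
    exact supported_rename ha hJ
where
  supported_rename {v : V} {J : MvPolynomial V K} {a : V → V} (ha : StrictMono a)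
      (hJ : J ∈ supported K (Set.Iio v)) : rename a J ∈ supported K (Set.Iio (a v)) := by
    rw [supported] at hJ
    induction hJ using Algebra.adjoin_induction with
    | mem x hx =>
      obtain ⟨w, hw, rfl⟩ := hx
      rw [rename_X]
      exact Algebra.subset_adjoin ⟨a w, ha hw, rfl⟩
    | algebraMap r =>
      rw [AlgHom.commutes]
      exact Subalgebra.algebraMap_mem _ r
    | add x y _ _ hx hy => rw [map_add]; exact Subalgebra.add_mem _ hx hy
    | mul x y _ _ hx hy => rw [map_mul]; exact Subalgebra.mul_mem _ hx hy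

end Low

section Basis

variable {K V Γ : Type*} [Field K] [LinearOrder V] [WellFoundedLT V]

/-- The renaming endomorphisms attached to self maps of the variables. -/
noncomputable def rsh (K : Type*) [CommRing K] {V Γ : Type*} (act : Γ → V → V) (γ : Γ) :
    MvPolynomial V K →+* MvPolynomial V K := (rename (R := K) (act γ)).toRingHom

omit [LinearOrder V] [WellFoundedLT V] in
theorem rsh_apply (act : Γ → V → V) (γ : Γ) (f : MvPolynomial V K) :
    rsh K act γ f = rename (act γ) f := rfl

/-- The basis theorem for perfect ideals. -/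
theorem all_fg (act : Γ → V → V) (hmono : ∀ γ, StrictMono (act γ))
    (hwqo : WellQuasiOrdered
      (fun a b : V × ℕ => (∃ γ, act γ a.1 = b.1) ∧ a.2 ≤ b.2))
    (I : Ideal (MvPolynomial V K)) (hI : IsPerf (rsh K act) I) : FG (rsh K act) I := by
  classical
  by_contra hnot
  obtain ⟨P, hP, hPn, hmax⟩ := exists_max I hI hnot
  have hprime : P.IsPrime := isPrime_of_max hPn hmax
  -- constants in `P` vanish
  have hconst : ∀ c : K, (C c : MvPolynomial V K) ∈ P → c = 0 := by
    intro c hc
    by_contra hc0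
    apply hprime.ne_top
    rw [Ideal.eq_top_iff_one]
    have : (1 : MvPolynomial V K) = C c⁻¹ * C c := by
      rw [← C_mul, inv_mul_cancel₀ hc0, C_1]
    rw [this]
    exact P.mul_mem_left _ hc
  -- the set of leading data
  let T : V × ℕ → Prop := fun t => ∃ J r : MvPolynomial V K, J ∈ supported K (Set.Iio t.1) ∧
    J ∉ P ∧ r ∈ Low t.1 t.2 ∧ J * X t.1 ^ t.2 + r ∈ P
  -- finitely many of them suffice
  obtain ⟨T₀, hT₀, hT₀'⟩ : ∃ T₀ : Finset (V × ℕ), (∀ t ∈ T₀, T t) ∧
      ∀ t, T t → ∃ s ∈ T₀, (∃ γ, act γ s.1 = t.1) ∧ s.2 ≤ t.2 := by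
    by_contra hcon
    push Not at hcon
    obtain ⟨f, hf1, hf2⟩ := exists_seq_of_forall_finset_exists T
      (fun a b => ¬ ((∃ γ, act γ a.1 = b.1) ∧ a.2 ≤ b.2)) (by
        intro s hs
        obtain ⟨t, ht, ht'⟩ := hcon s hs
        refine ⟨t, ht, fun x hx hcc => ?_⟩
        exact absurd hcc.2 (not_le_of_gt (ht' x hx hcc.1)))
    obtain ⟨m, n, hmn, h⟩ := hwqo f
    exact hf2 m n hmn h
  choose! J r hJ hJP hr hmem using hT₀
  set h₀ : MvPolynomial V K := ∏ t ∈ T₀, J t with hh₀
  have hh₀P : h₀ ∉ P := by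
    rw [hh₀, hprime.prod_mem_iff]
    rintro ⟨t, ht, h⟩
    exact hJP t ht h
  obtain ⟨G, hG, hG'⟩ := exists_finset_adjoin hmax hh₀P
  set 𝒜 : Finset (MvPolynomial V K) := T₀.image (fun t => J t * X t.1 ^ t.2 + r t) with h𝒜
  set Q := pc (rsh K act) ((G ∪ 𝒜 : Finset (MvPolynomial V K)) : Set (MvPolynomial V K)) with hQdef
  have hQ : IsPerf (rsh K act) Q := pc_isPerf _ _
  have hsub : ∀ x ∈ G ∪ 𝒜, x ∈ Q := fun x hx => subset_pc _ _ (by exact_mod_cast hx)
  -- main claim
  have main : ∀ v : V, ∀ d : ℕ, ∀ f ∈ Low v d, f ∈ P → h₀ * f ∈ Q := by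
    intro v
    induction v using WellFoundedLT.induction with
    | ind v ihv =>
    have low' : ∀ g ∈ supported K (Set.Iio v), g ∈ P → h₀ * g ∈ Q := by
      intro g hg hgP
      rcases const_or_le hg with ⟨c, rfl⟩ | ⟨w, hw, hgw⟩
      · rw [hconst c hgP]; simp
      · obtain ⟨e, he⟩ := exists_low hgw
        exact ihv w hw e g he hgP
    intro d
    induction d with
    | zero =>
      intro f hf _
      obtain rfl : f = 0 := hf
      simp
    | succ d ihd =>
      rintro f ⟨j, hj, s, hs, rfl⟩ hfP
      by_cases hjP : j ∈ P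
      · have h1 : s ∈ P := by
          have := P.sub_mem hfP (P.mul_mem_right (X v ^ d) hjP)
          simpa using this
        have h2 := low' j hj hjP
        have h3 := ihd s hs h1
        have : h₀ * (j * X v ^ d + s) = (h₀ * j) * X v ^ d + h₀ * s := by ring
        rw [this]
        exact Q.add_mem (Q.mul_mem_right _ h2) h3
      · obtain ⟨t, ht, ⟨γ, hγ⟩, htd⟩ := hT₀' (v, d) ⟨j, s, hj, hjP, hs, hfP⟩
        simp only at hγ htd
        have hA : J t * X t.1 ^ t.2 + r t ∈ 𝒜 := Finset.mem_image_of_mem _ ht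
        have hAQ : rename (act γ) (J t * X t.1 ^ t.2 + r t) ∈ Q :=
          hQ.1 γ _ (hsub _ (Finset.mem_union_right _ hA))
        have hAP : rename (act γ) (J t * X t.1 ^ t.2 + r t) ∈ P := hP.1 γ _ (hmem t ht)
        have hJs : rename (act γ) (J t) ∈ supported K (Set.Iio v) := by
          rw [← hγ]; exact low_rename.supported_rename (hmono γ) (hJ t ht)
        have hrs : rename (act γ) (r t) ∈ Low v t.2 := by
          rw [← hγ]; exact low_rename (hmono γ) (hr t ht)
        -- the reduced element
        set f' : MvPolynomial V K := rename (act γ) (J t) * (j * X v ^ d + s)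
          - j * X v ^ (d - t.2) * rename (act γ) (J t * X t.1 ^ t.2 + r t) with hf'
        have hf'P : f' ∈ P := P.sub_mem (P.mul_mem_left _ hfP) (P.mul_mem_left _ hAP)
        have hf'eq : f' = rename (act γ) (J t) * s
            + (- j) * (X v ^ (d - t.2) * rename (act γ) (r t)) := by
          rw [hf']
          simp only [map_add, map_mul, map_pow, rename_X, hγ]
          have : X v ^ d = X v ^ (d - t.2) * (X v ^ t.2 : MvPolynomial V K) := by
            rw [← pow_add, Nat.sub_add_cancel htd]
          rw [this]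
          ring
        have hf'low : f' ∈ Low v d := by
          rw [hf'eq]
          refine low_add (low_mul hJs hs) (low_mul (Subalgebra.neg_mem _ hj) ?_)
          have := low_mul_X (d - t.2) hrs
          rwa [Nat.add_sub_cancel' htd] at this
        have h1 : h₀ * f' ∈ Q := ihd f' hf'low hf'P
        have h2 : rename (act γ) (J t) * (h₀ * (j * X v ^ d + s)) ∈ Q := by
          have : rename (act γ) (J t) * (h₀ * (j * X v ^ d + s)) = h₀ * f'
              + (h₀ * j * X v ^ (d - t.2)) * rename (act γ) (J t * X t.1 ^ t.2 + r t) := by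
            rw [hf']; ring
          rw [this]
          exact Q.add_mem h1 (Q.mul_mem_left _ hAQ)
        have h3 : J t ∈ col Q (h₀ * (j * X v ^ d + s)) :=
          (col_isPerf hQ _).of_single (γ := γ) h2
        apply hQ.2.2
        obtain ⟨c, hc⟩ : J t ∣ h₀ := Finset.dvd_prod_of_mem _ ht
        have : h₀ * (j * X v ^ d + s) * (h₀ * (j * X v ^ d + s))
            = (c * (j * X v ^ d + s)) * (J t * (h₀ * (j * X v ^ d + s))) := by
          conv_lhs => rw [hc]
          rw [hc]; ring
        rw [this]
        exact Q.mul_mem_left _ h3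
  have main' : ∀ f ∈ P, h₀ * f ∈ Q := by
    intro f hf
    rcases const_or_le (S := Set.univ) (f := f) (by simp [supported_univ]) with ⟨c, rfl⟩ | ⟨w, -, hw⟩
    · rw [hconst c hf]; simp
    · obtain ⟨e, he⟩ := exists_low hw
      exact main w e f he hf
  refine hPn ⟨G ∪ 𝒜, ?_, ?_⟩
  · intro x hx
    rcases Finset.mem_union.1 (by exact_mod_cast hx : x ∈ G ∪ 𝒜) with hx | hx
    · exact hG hx
    · obtain ⟨t, ht, rfl⟩ := Finset.mem_image.1 hx
      exact hmem t ht
  · intro f hf
    apply hQ.2.2
    have : f ∈ col Q f := by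
      refine pc_le (col_isPerf hQ f) ?_ (hG' hf)
      rintro x (rfl | hx)
      · exact main' f hf
      · rw [SetLike.mem_coe, mem_col]
        exact Q.mul_mem_right _ (hsub x (Finset.mem_union_left _ hx))
    exact this

/-- Every set of polynomials has a finite subset with the same perfect closure. -/
theorem exists_finite_subset (act : Γ → V → V) (hmono : ∀ γ, StrictMono (act γ))
    (hwqo : WellQuasiOrdered
      (fun a b : V × ℕ => (∃ γ, act γ a.1 = b.1) ∧ a.2 ≤ b.2))
    (T : Set (MvPolynomial V K)) : ∃ T₀ : Finset (MvPolynomial V K),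
      (T₀ : Set (MvPolynomial V K)) ⊆ T ∧ ∀ Q : Ideal (MvPolynomial V K),
        IsPerf (rsh K act) Q → (T₀ : Set (MvPolynomial V K)) ⊆ Q → T ⊆ Q := by
  obtain ⟨T₀, h1, h2⟩ := exists_finset_of_fg (all_fg act hmono hwqo _ (pc_isPerf (rsh K act) T))
  exact ⟨T₀, h1, fun Q hQ hT => ((subset_pc _ T).trans h2).trans (pc_le hQ hT)⟩

end Basis

end Pool.Agent.H412.EqN
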