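import Pool.Agent.H412.EqN.Basis

/-!
The basis theorem for polynomial rings in the variables `ι × (J → ℕ)` with `ι`, `J` finite and
the translation action of `J → ℕ`.
-/

set_option autoImplicit false

namespace Pool.Agent.H412.EqN

open MvPolynomial

/-- Translation of the variables. -/
def tr {ι J : Type*} (γ : J → ℕ) (v : ι × (J → ℕ)) : ι × (J → ℕ) := (v.1, γ + v.2)

theorem exists_order (ι J : Type*) [Finite ι] [Finite J] :
    ∃ o : LinearOrder (ι × (J → ℕ)), @WellFoundedLT _ o.toLT ∧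
      ∀ γ : J → ℕ, @StrictMono _ _ o.toPreorder o.toPreorder (tr γ) := by
  obtain ⟨a, ⟨eι⟩⟩ := Finite.exists_equiv_fin ι
  obtain ⟨b, ⟨eJ⟩⟩ := Finite.exists_equiv_fin J
  let rk : ι × (J → ℕ) → Lex (Lex (Fin b → ℕ) × Fin a) :=
    fun v => toLex (toLex (fun i => v.2 (eJ.symm i)), eι v.1)
  have hrk : Function.Injective rk := by
    rintro ⟨i, g⟩ ⟨i', g'⟩ h
    have h1 := congrArg (fun t => (ofLex t).2) h
    have h2 := congrArg (fun t => ofLex (ofLex t).1) h
    simp only [rk, ofLex_toLex] at h1 h2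
    refine Prod.ext (eι.injective h1) ?_
    funext j
    have := congrFun h2 (eJ j)
    simpa using this
  let o : LinearOrder (ι × (J → ℕ)) := LinearOrder.lift' rk hrk
  refine ⟨o, ?_, ?_⟩
  · let _ := o
    exact ⟨InvImage.wf rk (wellFounded_lt)⟩
  · intro γ
    let _ := o
    intro u v huv
    have h : rk u < rk v := huv
    show rk (tr γ u) < rk (tr γ v)
    have key : ∀ w : ι × (J → ℕ), rk (tr γ w)
        = toLex (toLex (fun i => γ (eJ.symm i)) + toLex (fun i => w.2 (eJ.symm i)), eι w.1) := by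
      intro w; rfl
    rw [key, key]
    have h' : (toLex (toLex (fun i => u.2 (eJ.symm i)), eι u.1) : Lex (Lex (Fin b → ℕ) × Fin a))
      < toLex (toLex (fun i => v.2 (eJ.symm i)), eι v.1) := h
    rw [Prod.Lex.toLex_lt_toLex] at h' ⊢
    rcases h' with h' | ⟨h1, h2⟩
    · left
      exact add_lt_add_right h' _
    · right
      exact ⟨congrArg (fun t => toLex (fun i => γ (eJ.symm i)) + t) h1, h2⟩

theorem wqo_pairs (ι J : Type*) [Finite ι] [Finite J] :
    WellQuasiOrdered (fun a b : (ι × (J → ℕ)) × ℕ => (∃ γ, tr γ a.1 = b.1) ∧ a.2 ≤ b.2) := by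
  have h1 : WellQuasiOrdered (fun a b : ι => a = b) := Finite.wellQuasiOrdered _
  have h2 : WellQuasiOrdered (fun a b : (J → ℕ) × ℕ => a ≤ b) := wellQuasiOrdered_le
  intro f
  obtain ⟨m, n, hmn, h⟩ := h1.prod h2 (fun k => ((f k).1.1, ((f k).1.2, (f k).2)))
  refine ⟨m, n, hmn, ⟨(f n).1.2 - (f m).1.2, ?_⟩, ?_⟩
  · refine Prod.ext h.1 ?_
    exact tsub_add_cancel_of_le (Prod.mk_le_mk.1 h.2).1
  · exact (Prod.mk_le_mk.1 h.2).2

/-- Finite generation for perfect ideals in finitely many difference indeterminates. -/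
theorem exists_finite_subset_tr {K ι J : Type*} [Field K] [Finite ι] [Finite J]
    (T : Set (MvPolynomial (ι × (J → ℕ)) K)) : ∃ T₀ : Finset (MvPolynomial (ι × (J → ℕ)) K),
      (T₀ : Set (MvPolynomial (ι × (J → ℕ)) K)) ⊆ T ∧
      ∀ Q : Ideal (MvPolynomial (ι × (J → ℕ)) K),
        IsPerf (rsh K tr) Q → (T₀ : Set (MvPolynomial (ι × (J → ℕ)) K)) ⊆ Q →
        T ⊆ Q := by
  obtain ⟨o, hwf, hm⟩ := exists_order ι J
  let _ := o
  let _ := hwf
  exact exists_finite_subset tr hm (wqo_pairs ι J) T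

end Pool.Agent.H412.EqN
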