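import Pool.Agent.H412.EqN.Free

/-!
Finiteness of systems of equations over a free algebra on the letters `0, 1, 2, ...`.
-/

set_option autoImplicit false

namespace Pool.Agent.H412.EqN

open MvPolynomial

/-- Index set of the translations. -/
abbrev Jx (Q B : Type) := Option (Q ⊕ B)

/-- The variables: one difference indeterminate for the letters and one for each unknown. -/
abbrev Vx (Q B : Type) := Option B × (Jx Q B → ℕ)

section

variable (K : Type*) [Field K] {Q B : Type} [Fintype Q] [DecidableEq Q] [Fintype B] [DecidableEq B]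

/-- The translation attached to a multidegree. -/
def mdeg (B : Type) (a : Q → ℕ) : Jx Q B → ℕ
  | some (Sum.inl q) => a q
  | _ => 0

/-- The weight of a letter with multidegree `μ j` for the linear form `ω`. -/
def lwt {X : Type*} (μ : X → Q → ℕ) (ω : Q → ℕ) (x : X) : ℕ := ∑ q, μ x q * ω q

/-- The operator attached to a letter. -/
noncomputable def letterOp (μ : ℕ → Q → ℕ) (j : ℕ) : Module.End K (MvPolynomial (Vx Q B) K) :=
  (LinearMap.mulLeft K (X (none, Pi.single none j))) ∘ₗ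
    (rename (tr (mdeg B (μ j))) :
      MvPolynomial (Vx Q B) K →ₐ[K] MvPolynomial (Vx Q B) K).toLinearMap

/-- The operator attached to an unknown homogeneous element. -/
noncomputable def unkOp (b : B) : Module.End K (MvPolynomial (Vx Q B) K) :=
  (LinearMap.mulLeft K (X (some b, 0))) ∘ₗ
    (rename (tr (Pi.single (some (Sum.inr b)) 1)) :
      MvPolynomial (Vx Q B) K →ₐ[K] MvPolynomial (Vx Q B) K).toLinearMap

/-- The operators attached to constants. -/
noncomputable def Λ0 (B : Type) [DecidableEq B] (μ : ℕ → Q → ℕ) :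
    FreeAlgebra K ℕ →ₐ[K] Module.End K (MvPolynomial (Vx Q B) K) :=
  FreeAlgebra.lift K (letterOp K (B := B) μ)

/-- The operators attached to terms, where the unknown `i` is the sum of the homogeneous unknowns
`b` with `f b = i`. -/
noncomputable def Λ {n : ℕ} (μ : ℕ → Q → ℕ) (f : B → Fin n) :
    FreeAlgebra ℤ (FreeAlgebra K ℕ ⊕ Fin n) →ₐ[ℤ] Module.End K (MvPolynomial (Vx Q B) K) :=
  FreeAlgebra.lift ℤ (Sum.elim (fun a => Λ0 K B μ a)
    (fun i => ∑ b ∈ Finset.univ.filter (fun b => f b = i), unkOp K (Q := Q) b))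

variable {K}

/-- The degree of a translation. -/
def dg (ω : Q → ℕ) (d : B → ℕ) (γ : Jx Q B → ℕ) : ℕ :=
  ∑ q, γ (some (Sum.inl q)) * ω q + ∑ b, γ (some (Sum.inr b)) * d b

omit [DecidableEq Q] [DecidableEq B] in
theorem dg_add (ω : Q → ℕ) (d : B → ℕ) (γ γ' : Jx Q B → ℕ) :
    dg ω d (γ + γ') = dg ω d γ + dg ω d γ' := by
  simp only [dg, Pi.add_apply, add_mul, Finset.sum_add_distrib]
  ring

/-- The values of the difference indeterminates. -/
noncomputable def base (ω : Q → ℕ) (μ : ℕ → Q → ℕ) (z : B → FreeAlgebra K ℕ) :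
    Option B → MvPolynomial (ℕ × ℕ) K
  | none => X (0, 0)
  | some b => L K (lwt μ ω) (z b) 1

/-- The evaluation homomorphism. -/
noncomputable def ev (ω : Q → ℕ) (d : B → ℕ) (μ : ℕ → Q → ℕ) (z : B → FreeAlgebra K ℕ) :
    MvPolynomial (Vx Q B) K →ₐ[K] MvPolynomial (ℕ × ℕ) K :=
  aeval (fun v => τ (v.2 none) (dg ω d v.2) (base ω μ z v.1))

theorem ev_tr (ω : Q → ℕ) (d : B → ℕ) (μ : ℕ → Q → ℕ) (z : B → FreeAlgebra K ℕ)
    (γ : Jx Q B → ℕ) (g : MvPolynomial (Vx Q B) K) :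
    ev ω d μ z (rename (tr γ) g) = τ (γ none) (dg ω d γ) (ev ω d μ z g) := by
  have : (ev ω d μ z).comp (rename (tr γ)) = (τ (γ none) (dg ω d γ)).comp (ev ω d μ z) := by
    apply MvPolynomial.algHom_ext
    intro v
    simp only [AlgHom.comp_apply, rename_X, ev, aeval_X, tr, τ_τ, dg_add, Pi.add_apply]
  exact DFunLike.congr_fun this g

theorem ev_ker_isPerf (ω : Q → ℕ) (d : B → ℕ) (μ : ℕ → Q → ℕ) (z : B → FreeAlgebra K ℕ) :
    IsPerf (rsh K (tr : (Jx Q B → ℕ) → Vx Q B → Vx Q B)) (RingHom.ker (ev ω d μ z)) := by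
  refine ⟨?_, ?_, ?_⟩
  · intro γ g hg
    rw [RingHom.mem_ker] at hg ⊢
    rw [rsh_apply, ev_tr, hg, map_zero]
  · intro γ g hg
    rw [RingHom.mem_ker] at hg ⊢
    rw [rsh_apply, map_mul, ev_tr, mul_eq_zero] at hg
    rcases hg with hg | hg
    · exact hg
    · exact τ_inj _ _ (by rw [hg, map_zero])
  · intro g hg
    rw [RingHom.mem_ker] at hg ⊢
    rw [map_mul, mul_self_eq_zero] at hg
    exact hg

theorem dg_single (ω : Q → ℕ) (d : B → ℕ) (b : B) :
    dg ω d (Pi.single (some (Sum.inr b)) 1) = d b := by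
  simp [dg, Pi.single_apply]

theorem dg_mdeg (ω : Q → ℕ) (d : B → ℕ) (a : Q → ℕ) :
    dg ω d (mdeg B a) = ∑ q, a q * ω q := by
  simp [dg, mdeg]

theorem mdeg_none (a : Q → ℕ) : mdeg B a none = 0 := rfl

theorem dg_none (ω : Q → ℕ) (d : B → ℕ) (j : ℕ) : dg ω d (Pi.single none j) = 0 := by
  simp [dg]

omit [DecidableEq Q] [DecidableEq B] in
theorem dg_zero (ω : Q → ℕ) (d : B → ℕ) : dg ω d 0 = 0 := by simp [dg]

theorem ev_letterOp (ω : Q → ℕ) (d : B → ℕ) (μ : ℕ → Q → ℕ) (z : B → FreeAlgebra K ℕ)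
    (j : ℕ) (g : MvPolynomial (Vx Q B) K) :
    ev ω d μ z (letterOp K μ j g)
      = L K (lwt μ ω) (FreeAlgebra.ι K j) (ev ω d μ z g) := by
  rw [L_ι, letterOp, LinearMap.comp_apply, LinearMap.mulLeft_apply, AlgHom.toLinearMap_apply,
    map_mul, ev_tr, dg_mdeg, mdeg_none]
  congr 1
  simp only [ev, aeval_X, base, dg_none, Pi.single_eq_same, τ, rename_X, add_zero]

theorem ev_Λ0 (ω : Q → ℕ) (d : B → ℕ) (μ : ℕ → Q → ℕ) (z : B → FreeAlgebra K ℕ)
    (a : FreeAlgebra K ℕ) (g : MvPolynomial (Vx Q B) K) :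
    ev ω d μ z (Λ0 K B μ a g) = L K (lwt μ ω) a (ev ω d μ z g) := by
  induction a using FreeAlgebra.induction generalizing g with
  | grade0 r => simp [Module.algebraMap_end_apply]
  | grade1 x =>
    rw [← ev_letterOp]
    simp [Λ0]
  | mul a b ha hb => rw [map_mul, Module.End.mul_apply, ha, hb, map_mul, Module.End.mul_apply]
  | add a b ha hb =>
    rw [map_add, LinearMap.add_apply, map_add, ha, hb, map_add, LinearMap.add_apply]

theorem ev_unkOp (ω : Q → ℕ) (d : B → ℕ) (μ : ℕ → Q → ℕ) (z : B → FreeAlgebra K ℕ)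
    (hz : ∀ b, z b ∈ wtPart K (lwt μ ω) (d b))
    (b : B) (g : MvPolynomial (Vx Q B) K) :
    ev ω d μ z (unkOp K b g) = L K (lwt μ ω) (z b) (ev ω d μ z g) := by
  rw [L_homog _ (hz b), unkOp, LinearMap.comp_apply, LinearMap.mulLeft_apply,
    AlgHom.toLinearMap_apply, map_mul, ev_tr, dg_single]
  congr 1
  simp only [ev, aeval_X, base, dg_zero, Pi.zero_apply, τ_zero]

theorem ev_Λ {n : ℕ} (ω : Q → ℕ) (d : B → ℕ) (μ : ℕ → Q → ℕ) (z : B → FreeAlgebra K ℕ)
    (hz : ∀ b, z b ∈ wtPart K (lwt μ ω) (d b)) (f : B → Fin n)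
    (w : FreeAlgebra ℤ (FreeAlgebra K ℕ ⊕ Fin n)) (g : MvPolynomial (Vx Q B) K) :
    ev ω d μ z (Λ K μ f w g)
      = L K (lwt μ ω)
        (evalAt (fun i => ∑ b ∈ Finset.univ.filter (fun b => f b = i), z b) w)
        (ev ω d μ z g) := by
  induction w using FreeAlgebra.induction generalizing g with
  | grade0 r => simp
  | grade1 x =>
    rcases x with a | i
    · rw [← ev_Λ0]
      simp [Λ, evalAt]
    · simp [Λ, evalAt, ev_unkOp _ _ _ _ hz, map_sum, LinearMap.sum_apply]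
  | mul a b ha hb => rw [map_mul, Module.End.mul_apply, ha, hb, map_mul, map_mul,
      Module.End.mul_apply]
  | add a b ha hb =>
    rw [map_add, LinearMap.add_apply, map_add, ha, hb, map_add, map_add, LinearMap.add_apply]

/-- Solutions correspond to kernels of evaluation maps. -/
theorem evalAt_eq_zero_iff {n : ℕ} (ω : Q → ℕ) (d : B → ℕ) (μ : ℕ → Q → ℕ)
    (hω : ∀ a b, lwt μ ω a = 0 → lwt μ ω b = 0 → a = b) (z : B → FreeAlgebra K ℕ)
    (hz : ∀ b, z b ∈ wtPart K (lwt μ ω) (d b)) (f : B → Fin n)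
    (w : FreeAlgebra ℤ (FreeAlgebra K ℕ ⊕ Fin n)) :
    evalAt (fun i => ∑ b ∈ Finset.univ.filter (fun b => f b = i), z b) w = 0 ↔
      Λ K μ f w 1 ∈ RingHom.ker (ev ω d μ z) := by
  rw [RingHom.mem_ker, ev_Λ _ _ _ _ hz, map_one]
  constructor
  · intro h; rw [h, map_zero, LinearMap.zero_apply]
  · exact L_one_inj _ hω _

/-- Finiteness over the letters `0, 1, 2, ...`. -/
theorem nat_letters {n : ℕ} (μ : ℕ → Q → ℕ) (f : B → Fin n)
    (S : Set (FreeAlgebra ℤ (FreeAlgebra K ℕ ⊕ Fin n))) :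
    ∃ S₀ : Finset (FreeAlgebra ℤ (FreeAlgebra K ℕ ⊕ Fin n)),
      (S₀ : Set (FreeAlgebra ℤ (FreeAlgebra K ℕ ⊕ Fin n))) ⊆ S ∧
      ∀ (ω : Q → ℕ), (∀ a b, lwt μ ω a = 0 → lwt μ ω b = 0 → a = b) →
      ∀ z : B → FreeAlgebra K ℕ, (∀ b, ∃ d, z b ∈ wtPart K (lwt μ ω) d) →
      (∀ w ∈ S₀, evalAt (fun i => ∑ b ∈ Finset.univ.filter (fun b => f b = i), z b) w = 0) →
      ∀ w ∈ S, evalAt (fun i => ∑ b ∈ Finset.univ.filter (fun b => f b = i), z b) w = 0 := by
  classical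
  obtain ⟨T₀, h1, h2⟩ := exists_finite_subset_tr (K := K) (ι := Option B) (J := Jx Q B)
    ((fun w => Λ K μ f w 1) '' S)
  obtain ⟨S₀, hS₀, hS₀'⟩ := Finset.subset_set_image_iff.1 h1
  refine ⟨S₀, hS₀, fun ω hω z hz hsol w hw => ?_⟩
  choose d hd using hz
  have key := h2 (RingHom.ker (ev ω d μ z)) (ev_ker_isPerf ω d μ z) (by
    rw [← hS₀']
    intro x hx
    obtain ⟨w, hw, rfl⟩ := Finset.mem_image.1 (by exact_mod_cast hx)
    exact (evalAt_eq_zero_iff ω d μ hω z hd f w).1 (hsol w hw))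
  exact (evalAt_eq_zero_iff ω d μ hω z hd f w).2 (key ⟨w, hw, rfl⟩)

end

end Pool.Agent.H412.EqN
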