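import Pool.Agent.H412.EqN.Dickson

/-!
Operators on polynomial rings attached to elements of a free algebra, and the finiteness of
systems of equations on tuples with boundedly many homogeneous components.
-/

set_option autoImplicit false

namespace Pool.Agent.H412.EqN

open MvPolynomial

/-- The span of the words of weight `d`, where the letter `x` has weight `wt x`. -/
def wtPart (K : Type*) {X : Type*} [CommSemiring K] (wt : X → ℕ) (d : ℕ) :
    Submodule K (FreeAlgebra K X) :=
  Submodule.span K {a | ∃ l : List X, (l.map wt).sum = d ∧ a = (l.map (FreeAlgebra.ι K)).prod}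

/-- Sums of `m` homogeneous elements. -/
def SumHomog (K : Type*) {X : Type*} [CommSemiring K] (wt : X → ℕ) (m : ℕ)
    (a : FreeAlgebra K X) : Prop :=
  ∃ z : Fin m → FreeAlgebra K X, (∀ j, ∃ d, z j ∈ wtPart K wt d) ∧ a = ∑ j, z j

/-- Evaluation of a term with constants at a tuple. -/
noncomputable def evalAt {R : Type*} [Ring R] {n : ℕ} (x : Fin n → R) :
    FreeAlgebra ℤ (R ⊕ Fin n) →ₐ[ℤ] R :=
  FreeAlgebra.lift ℤ (Sum.elim (fun r : R => r) x)

section Rep

variable {K : Type*} [Field K]

/-- Shift of both indices. -/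
noncomputable def τ (a b : ℕ) : MvPolynomial (ℕ × ℕ) K →ₐ[K] MvPolynomial (ℕ × ℕ) K :=
  rename (fun p => (a + p.1, b + p.2))

theorem τ_inj (a b : ℕ) : Function.Injective (τ (K := K) a b) :=
  rename_injective _ (fun p q h => by
    simp only [Prod.mk.injEq, add_right_inj] at h
    exact Prod.ext h.1 h.2)

theorem τ_τ (a b a' b' : ℕ) (f : MvPolynomial (ℕ × ℕ) K) :
    τ a b (τ a' b' f) = τ (a + a') (b + b') f := by
  simp only [τ, rename_rename]
  have : ((fun p : ℕ × ℕ => (a + p.1, b + p.2)) ∘ fun p : ℕ × ℕ => (a' + p.1, b' + p.2))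
      = fun p => (a + a' + p.1, b + b' + p.2) := by
    funext p; simp [add_assoc]
  rw [this]

theorem τ_zero (f : MvPolynomial (ℕ × ℕ) K) : τ 0 0 f = f := by
  simp only [τ, zero_add, Prod.mk.eta]
  exact rename_id_apply f

/-- The operators attached to the elements of the free algebra. -/
noncomputable def L (K : Type*) [Field K] (wt : ℕ → ℕ) :
    FreeAlgebra K ℕ →ₐ[K] Module.End K (MvPolynomial (ℕ × ℕ) K) :=
  FreeAlgebra.lift K (fun j =>
    (LinearMap.mulLeft K (X (j, 0))) ∘ₗ (τ (K := K) 0 (wt j)).toLinearMap)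

theorem L_ι (wt : ℕ → ℕ) (j : ℕ) (c : MvPolynomial (ℕ × ℕ) K) :
    L K wt (FreeAlgebra.ι K j) c = X (j, 0) * τ 0 (wt j) c := by
  simp [L]

/-- The exponent vector of a word. -/
noncomputable def mon (wt : ℕ → ℕ) : List ℕ → (ℕ × ℕ →₀ ℕ)
  | [] => 0
  | j :: l => Finsupp.single (j, 0) 1 + (mon wt l).mapDomain (fun p => (0 + p.1, wt j + p.2))

theorem L_word (wt : ℕ → ℕ) (l : List ℕ) (c : MvPolynomial (ℕ × ℕ) K) :
    L K wt (l.map (FreeAlgebra.ι K)).prod c
      = monomial (mon wt l) 1 * τ 0 (l.map wt).sum c := by
  induction l generalizing c with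
  | nil => simp [mon, τ_zero]
  | cons j l ih =>
    rw [List.map_cons, List.prod_cons, map_mul, Module.End.mul_apply, ih, L_ι, map_mul, τ_τ]
    simp only [List.map_cons, List.sum_cons, mon, add_zero]
    rw [← mul_assoc]
    congr 1
    rw [τ, rename_monomial, X, monomial_mul, one_mul]

theorem L_homog (wt : ℕ → ℕ) {d : ℕ} {z : FreeAlgebra K ℕ} (hz : z ∈ wtPart K wt d)
    (c : MvPolynomial (ℕ × ℕ) K) : L K wt z c = L K wt z 1 * τ 0 d c := by
  induction hz using Submodule.span_induction with
  | mem x hx =>
    obtain ⟨l, rfl, rfl⟩ := hx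
    rw [L_word, L_word, map_one (τ 0 _), mul_one]
  | zero => simp
  | add x y _ _ hx hy => rw [map_add, LinearMap.add_apply, hx, hy, LinearMap.add_apply]; ring
  | smul a x _ hx =>
    rw [map_smul, LinearMap.smul_apply, hx, LinearMap.smul_apply, smul_mul_assoc]

theorem mon_inj (wt : ℕ → ℕ) (hwt : ∀ a b, wt a = 0 → wt b = 0 → a = b) :
    Function.Injective (mon wt) := by
  have hn : ∀ (j : ℕ) (l : List ℕ) (a : ℕ), wt j ≠ 0 →
      ((mon wt l).mapDomain (fun p : ℕ × ℕ => (0 + p.1, wt j + p.2))) (a, 0) = 0 := by
    intro j l a hj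
    apply Finsupp.mapDomain_of_notMem_range
    rintro ⟨p, hp⟩
    simp only [Prod.mk.injEq] at hp
    omega
  intro l l' h
  induction l generalizing l' with
  | nil =>
    cases l' with
    | nil => rfl
    | cons j' l' =>
      have := DFunLike.congr_fun h (j', 0)
      simp [mon] at this
      omega
  | cons j l ih =>
    cases l' with
    | nil =>
      have := DFunLike.congr_fun h (j, 0)
      simp [mon] at this
    | cons j' l' =>
      simp only [mon] at h
      have hjj : j = j' := by
        by_contra hne
        apply hne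
        apply hwt
        · by_contra h0
          have := DFunLike.congr_fun h (j', 0)
          simp only [Finsupp.add_apply, hn j l j' h0, Finsupp.single_apply, Prod.mk.injEq, hne,
            false_and, if_false, if_true] at this
          omega
        · by_contra h0
          have := DFunLike.congr_fun h (j, 0)
          simp only [Finsupp.add_apply, hn j' l' j h0, Finsupp.single_apply, Prod.mk.injEq,
            Ne.symm hne, false_and, if_false, if_true] at this
          omega
      subst hjj
      have h2 := add_left_cancel h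
      have hinj : Function.Injective (fun p : ℕ × ℕ => (0 + p.1, wt j + p.2)) := by
        intro p q hpq
        simp only [Prod.mk.injEq, add_right_inj, zero_add] at hpq
        exact Prod.ext hpq.1 hpq.2
      rw [ih (Finsupp.mapDomain_injective hinj h2)]

theorem mem_span_words {X : Type*} (a : FreeAlgebra K X) : a ∈ Submodule.span K
    (Set.range (fun l : List X => (l.map (FreeAlgebra.ι K)).prod)) := by
  induction a using FreeAlgebra.induction with
  | grade0 r =>
    rw [Algebra.algebraMap_eq_smul_one]
    exact Submodule.smul_mem _ _ (Submodule.subset_span ⟨[], by simp⟩)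
  | grade1 x => exact Submodule.subset_span ⟨[x], by simp⟩
  | mul a b ha hb =>
    have := Submodule.mul_mem_mul ha hb
    rw [Submodule.span_mul_span] at this
    refine Submodule.span_mono ?_ this
    rintro _ ⟨_, ⟨l, rfl⟩, _, ⟨l', rfl⟩, rfl⟩
    exact ⟨l ++ l', by simp⟩
  | add a b ha hb => exact Submodule.add_mem _ ha hb

theorem L_one_inj (wt : ℕ → ℕ) (hwt : ∀ a b, wt a = 0 → wt b = 0 → a = b)
    (a : FreeAlgebra K ℕ) (ha : L K wt a 1 = 0) : a = 0 := by
  have hspan := mem_span_words a
  obtain ⟨c, hc⟩ := (Finsupp.mem_span_range_iff_exists_finsupp).1 hspan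
  have hli := (MvPolynomial.basisMonomials (ℕ × ℕ) K).linearIndependent.comp _ (mon_inj wt hwt)
  rw [linearIndependent_iff] at hli
  have : Finsupp.linearCombination K
      ((MvPolynomial.basisMonomials (ℕ × ℕ) K) ∘ mon wt) c = 0 := by
    rw [← ha, ← hc, Finsupp.linearCombination_apply, Finsupp.sum, Finsupp.sum, map_sum,
      LinearMap.sum_apply]
    refine Finset.sum_congr rfl fun l _ => ?_
    rw [map_smul, LinearMap.smul_apply, L_word, map_one (τ 0 _), mul_one]
    simp
  rw [hli _ this] at hc
  rw [← hc]
  simp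

end Rep

end Pool.Agent.H412.EqN
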