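import Pool.Agent.H412.EqN.Eval

/-!
Finiteness of systems of equations over an arbitrary free algebra, on tuples with boundedly many
homogeneous components.
-/

set_option autoImplicit false

namespace Pool.Agent.H412.EqN

section Maps

variable {K : Type*} [Field K] {X Y : Type*}

/-- A map between free algebras sending letters to letters of the same weight or to zero. -/
noncomputable def letterMap (K : Type*) [Field K] {X Y : Type*} (e : X → Option Y) :
    FreeAlgebra K X →ₐ[K] FreeAlgebra K Y :=
  FreeAlgebra.lift K (fun x => (e x).elim 0 (FreeAlgebra.ι K))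

theorem letterMap_ι (e : X → Option Y) (x : X) :
    letterMap K e (FreeAlgebra.ι K x) = (e x).elim 0 (FreeAlgebra.ι K) := by
  simp [letterMap]

theorem letterMap_wtPart (e : X → Option Y) (wX : X → ℕ) (wY : Y → ℕ)
    (h : ∀ x y, e x = some y → wY y = wX x) {d : ℕ} {a : FreeAlgebra K X}
    (ha : a ∈ wtPart K wX d) : letterMap K e a ∈ wtPart K wY d := by
  induction ha using Submodule.span_induction with
  | mem x hx =>
    obtain ⟨l, rfl, rfl⟩ := hx
    clear a
    have key : ∀ l : List X, letterMap K e (l.map (FreeAlgebra.ι K)).prod = 0 ∨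
        ∃ l' : List Y, (l'.map wY).sum = (l.map wX).sum ∧
          letterMap K e (l.map (FreeAlgebra.ι K)).prod = (l'.map (FreeAlgebra.ι K)).prod := by
      intro l
      induction l with
      | nil => exact Or.inr ⟨[], by simp, by simp⟩
      | cons x l ih =>
        rw [List.map_cons, List.prod_cons, map_mul, letterMap_ι]
        rcases hx : e x with _ | y
        · left; simp
        · rcases ih with ih | ⟨l', h1, h2⟩
          · left; rw [ih, mul_zero]
          · right
            refine ⟨y :: l', ?_, ?_⟩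
            · simp [h1, h x y hx]
            · rw [h2]; simp
    rcases key l with hl | ⟨l', h1, h2⟩
    · rw [hl]; exact Submodule.zero_mem _
    · rw [h2]; exact Submodule.subset_span ⟨l', h1, rfl⟩
  | zero => rw [map_zero]; exact Submodule.zero_mem _
  | add x y _ _ hx hy => rw [map_add]; exact Submodule.add_mem _ hx hy
  | smul r x _ hx => rw [map_smul]; exact Submodule.smul_mem _ _ hx

/-- Every element involves finitely many letters. -/
theorem exists_support (a : FreeAlgebra K X) : ∃ T : Set X, T.Finite ∧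
    ∀ e : X → Option X, (∀ x ∈ T, e x = some x) → letterMap K e a = a := by
  induction a using FreeAlgebra.induction with
  | grade0 r => exact ⟨∅, Set.finite_empty, fun e _ => by rw [AlgHom.commutes]⟩
  | grade1 x =>
    refine ⟨{x}, Set.finite_singleton x, fun e he => ?_⟩
    rw [letterMap_ι, he x rfl]
    rfl
  | mul a b ha hb =>
    obtain ⟨S, hS, h1⟩ := ha
    obtain ⟨T, hT, h2⟩ := hb
    refine ⟨S ∪ T, hS.union hT, fun e he => ?_⟩
    rw [map_mul, h1 e fun x hx => he x (Or.inl hx), h2 e fun x hx => he x (Or.inr hx)]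
  | add a b ha hb =>
    obtain ⟨S, hS, h1⟩ := ha
    obtain ⟨T, hT, h2⟩ := hb
    refine ⟨S ∪ T, hS.union hT, fun e he => ?_⟩
    rw [map_add, h1 e fun x hx => he x (Or.inl hx), h2 e fun x hx => he x (Or.inr hx)]

/-- The map on terms induced by a ring homomorphism on constants. -/
noncomputable def termMap {R S : Type*} [Ring R] [Ring S] (φ : R → S) (n : ℕ) :
    FreeAlgebra ℤ (R ⊕ Fin n) →ₐ[ℤ] FreeAlgebra ℤ (S ⊕ Fin n) :=
  FreeAlgebra.lift ℤ (fun t => FreeAlgebra.ι ℤ (Sum.map φ id t))

theorem evalAt_termMap {R S : Type*} [Ring R] [Ring S] (φ : R →+* S) {n : ℕ} (x : Fin n → R)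
    (w : FreeAlgebra ℤ (R ⊕ Fin n)) :
    evalAt (fun i => φ (x i)) (termMap φ n w) = φ (evalAt x w) := by
  induction w using FreeAlgebra.induction with
  | grade0 r => simp
  | grade1 t => rcases t with r | i <;> simp [evalAt, termMap]
  | mul a b ha hb => rw [map_mul, map_mul, ha, hb, map_mul, map_mul]
  | add a b ha hb => rw [map_add, map_add, ha, hb, map_add, map_add]

end Maps

/-- Finiteness of systems of equations on tuples with at most `m` homogeneous components. -/
theorem main (K : Type*) [Field K] (X : Type*) (q n m : ℕ) (μ : X → Fin q → ℕ)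
    (S : Set (FreeAlgebra ℤ (FreeAlgebra K X ⊕ Fin n))) :
    ∃ S₀ : Finset (FreeAlgebra ℤ (FreeAlgebra K X ⊕ Fin n)),
      (S₀ : Set (FreeAlgebra ℤ (FreeAlgebra K X ⊕ Fin n))) ⊆ S ∧
      ∀ ω : Fin q → ℕ, (∀ s t : X, lwt μ ω s = 0 → lwt μ ω t = 0 → s = t) →
      ∀ x : Fin n → FreeAlgebra K X, (∀ i, SumHomog K (lwt μ ω) m (x i)) →
      (∀ w ∈ S₀, evalAt x w = 0) → ∀ w ∈ S, evalAt x w = 0 := by
  classical
  by_contra hcon
  push Not at hcon
  -- a bad sequence
  obtain ⟨s, hs1, hs2⟩ := exists_seq_of_forall_finset_exists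
    (α := (FreeAlgebra ℤ (FreeAlgebra K X ⊕ Fin n)) × (Fin q → ℕ) × (Fin n → FreeAlgebra K X))
    (fun t => t.1 ∈ S ∧ (∀ a b : X, lwt μ t.2.1 a = 0 → lwt μ t.2.1 b = 0 → a = b) ∧
      (∀ i, SumHomog K (lwt μ t.2.1) m (t.2.2 i)) ∧ evalAt t.2.2 t.1 ≠ 0)
    (fun t t' => evalAt t'.2.2 t.1 = 0) (by
      intro F hF
      obtain ⟨ω, h1, x, h2, h3, w, h4, h5⟩ := hcon (F.image Prod.fst) (by
        intro w hw
        obtain ⟨t, ht, rfl⟩ := Finset.mem_image.1 (by exact_mod_cast hw)
        exact (hF t ht).1)
      exact ⟨(w, ω, x), ⟨h4, h1, h2, h5⟩, fun t ht => h3 _ (Finset.mem_image_of_mem _ ht)⟩)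
  -- the letters involved
  choose T hT1 hT2 using fun k => exists_support (evalAt (s k).2.2 (s k).1)
  set U : Set X := ⋃ k, T k with hU
  have hUc : U.Countable := Set.countable_iUnion fun k => (hT1 k).countable
  obtain ⟨g, hg⟩ := Set.countable_iff_exists_injOn.1 hUc
  -- the maps between the letters
  let e : X → Option ℕ := fun x => if x ∈ U then some (g x) else none
  let e' : ℕ → Option X := fun j => if h : ∃ x ∈ U, g x = j then some h.choose else none
  have he' : ∀ x ∈ U, e' (g x) = some x := by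
    intro x hx
    have h : ∃ y ∈ U, g y = g x := ⟨x, hx, rfl⟩
    simp only [e', dif_pos h]
    exact congrArg some (hg h.choose_spec.1 hx h.choose_spec.2)
  have hcomp : ∀ a : FreeAlgebra K X, letterMap K e' (letterMap K e a)
      = letterMap K (fun x => if x ∈ U then some x else none) a := by
    intro a
    have : (letterMap K e').comp (letterMap K e)
        = letterMap K (fun x => if x ∈ U then some x else none) := by
      apply FreeAlgebra.hom_ext
      funext x
      simp only [Function.comp_apply, AlgHom.comp_apply, letterMap_ι]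
      by_cases hx : x ∈ U
      · simp only [e, if_pos hx, Option.elim_some, letterMap_ι, he' x hx]
      · simp only [e, if_neg hx, Option.elim_none, map_zero]
    exact DFunLike.congr_fun this a
  -- multidegrees
  let μ' : ℕ → Option (Fin q) → ℕ := fun j => if h : ∃ x ∈ U, g x = j then
    fun o => o.elim 0 (μ h.choose) else fun o => o.elim 1 0
  have hμ : ∀ x ∈ U, μ' (g x) = fun o => o.elim 0 (μ x) := by
    intro x hx
    have h : ∃ y ∈ U, g y = g x := ⟨x, hx, rfl⟩
    simp only [μ', dif_pos h]
    rw [hg h.choose_spec.1 hx h.choose_spec.2]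
  set φ : FreeAlgebra K X →+* FreeAlgebra K ℕ := (letterMap K e).toRingHom with hφ
  have hφa : ∀ a, φ a = letterMap K e a := fun a => rfl
  obtain ⟨S₀, h1, h2⟩ := nat_letters (K := K) (Q := Option (Fin q)) (B := Fin n × Fin m) μ'
    Prod.fst ((fun k => termMap φ n (s k).1) '' Set.univ)
  obtain ⟨F, -, hF⟩ := Finset.subset_set_image_iff.1 h1
  set N : ℕ := F.sup id + 1 with hN
  obtain ⟨-, hω, hx, hne⟩ := hs1 N
  choose z hz hxz using hx
  let ω' : Option (Fin q) → ℕ := fun o => o.elim 1 (s N).2.1
  have hw1 : ∀ x ∈ U, lwt μ' ω' (g x) = lwt μ (s N).2.1 x := by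
    intro x hx
    simp only [lwt, hμ x hx, ω', Fintype.sum_option, Option.elim_none, Option.elim_some, zero_mul,
      zero_add]
  have hw2 : ∀ j, lwt μ' ω' j = 0 → ∃ x ∈ U, g x = j := by
    intro j hj
    by_contra h
    simp [lwt, μ', dif_neg h, ω', Fintype.sum_option] at hj
  have key := h2 ω' (by
    intro a b ha hb
    obtain ⟨x, hxU, rfl⟩ := hw2 a ha
    obtain ⟨y, hyU, rfl⟩ := hw2 b hb
    rw [hω x y (by rwa [hw1 x hxU] at ha) (by rwa [hw1 y hyU] at hb)])
    (fun b => φ (z b.1 b.2)) (by
      intro b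
      obtain ⟨d, hd⟩ := hz b.1 b.2
      refine ⟨d, ?_⟩
      rw [hφa]
      refine letterMap_wtPart e _ _ ?_ hd
      intro x y hxy
      by_cases hxU : x ∈ U
      · simp only [e, if_pos hxU, Option.some.injEq] at hxy
        subst hxy
        exact hw1 x hxU
      · simp only [e, if_neg hxU] at hxy
        exact absurd hxy (by simp))
  have hsum : (fun i : Fin n => ∑ b ∈ Finset.univ.filter (fun b : Fin n × Fin m => b.1 = i),
      φ (z b.1 b.2)) = fun i => φ ((s N).2.2 i) := by
    funext i
    rw [hxz i, map_sum, Finset.sum_filter, Fintype.sum_prod_type]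
    simp
  rw [hsum] at key
  have hzero := key (by
    intro w hw
    rw [← hF] at hw
    obtain ⟨k, hk, rfl⟩ := Finset.mem_image.1 hw
    have hkN : k < N := Nat.lt_succ_of_le (Finset.le_sup (f := id) hk)
    rw [evalAt_termMap, hs2 k N hkN, map_zero]) _ ⟨N, trivial, rfl⟩
  rw [evalAt_termMap, hφa] at hzero
  apply hne
  rw [← hT2 N (fun x => if x ∈ U then some x else none) (fun x hx => by
    rw [if_pos (Set.mem_iUnion.2 ⟨N, hx⟩)]), ← hcomp, hzero, map_zero]

end Pool.Agent.H412.EqN
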