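import Mathlib

/-!
Perfect ideals with respect to a family of ring endomorphisms and a basis theorem for them
(in the spirit of Ritt and Raudenbush).
-/

set_option autoImplicit false

namespace Pool.Agent.H412.EqN

open MvPolynomial

section Perf

variable {R Γ : Type*} [CommRing R] (sh : Γ → R →+* R)

/-- An ideal is perfect if it is stable under all endomorphisms `sh γ`, is radical, and contains
`a` as soon as it contains `a * sh γ a`. -/
def IsPerf (I : Ideal R) : Prop :=
  (∀ γ f, f ∈ I → sh γ f ∈ I) ∧ (∀ γ a, a * sh γ a ∈ I → a ∈ I) ∧ (∀ a, a * a ∈ I → a ∈ I)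

/-- The perfect closure of a set. -/
def pc (T : Set R) : Ideal R := sInf {I | IsPerf sh I ∧ T ⊆ I}

variable {sh}

theorem IsPerf.of_single {I : Ideal R} (h : IsPerf sh I) {γ : Γ} {a : R} (ha : sh γ a ∈ I) :
    a ∈ I := h.2.1 γ a (I.mul_mem_left _ ha)

theorem isPerf_top : IsPerf sh (⊤ : Ideal R) := by simp [IsPerf]

theorem isPerf_sInf (A : Set (Ideal R)) (hA : ∀ I ∈ A, IsPerf sh I) : IsPerf sh (sInf A) := by
  refine ⟨?_, ?_, ?_⟩
  · intro γ f hf
    rw [Submodule.mem_sInf] at hf ⊢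
    exact fun I hI => (hA I hI).1 γ f (hf I hI)
  · intro γ f hf
    rw [Submodule.mem_sInf] at hf ⊢
    exact fun I hI => (hA I hI).2.1 γ f (hf I hI)
  · intro f hf
    rw [Submodule.mem_sInf] at hf ⊢
    exact fun I hI => (hA I hI).2.2 f (hf I hI)

variable (sh) in
theorem pc_isPerf (T : Set R) : IsPerf sh (pc sh T) := isPerf_sInf _ fun _ hI => hI.1

variable (sh) in
theorem subset_pc (T : Set R) : T ⊆ (pc sh T : Set R) := by
  intro f hf
  rw [pc, SetLike.mem_coe, Submodule.mem_sInf]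
  exact fun I hI => hI.2 hf

theorem pc_le {T : Set R} {I : Ideal R} (hI : IsPerf sh I) (hT : T ⊆ (I : Set R)) :
    pc sh T ≤ I := sInf_le ⟨hI, hT⟩

theorem pc_mono {T T' : Set R} (h : T ⊆ T') : pc sh T ≤ pc sh T' :=
  pc_le (pc_isPerf sh T') (h.trans (subset_pc sh T'))

/-- The elements that multiply `f` into `Q`. -/
def col (Q : Ideal R) (f : R) : Ideal R where
  carrier := {g | g * f ∈ Q}
  zero_mem' := by simp
  add_mem' := by
    intro a b ha hb
    simp only [Set.mem_ofPred_eq, add_mul] at *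
    exact Q.add_mem ha hb
  smul_mem' := by
    intro c a ha
    simp only [Set.mem_ofPred_eq, smul_eq_mul, mul_assoc] at *
    exact Q.mul_mem_left _ ha

theorem mem_col {Q : Ideal R} {f g : R} : g ∈ col Q f ↔ g * f ∈ Q := Iff.rfl

theorem col_isPerf {Q : Ideal R} (hQ : IsPerf sh Q) (f : R) : IsPerf sh (col Q f) := by
  refine ⟨?_, ?_, ?_⟩
  · intro γ g hg
    rw [mem_col] at *
    apply hQ.2.1 γ
    have h1 := hQ.1 γ _ hg
    have : sh γ g * f * sh γ (sh γ g * f) = (f * sh γ (sh γ g)) * sh γ (g * f) := by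
      simp only [map_mul]; ring
    rw [this]
    exact Q.mul_mem_left _ h1
  · intro γ g hg
    rw [mem_col] at *
    apply hQ.2.1 γ
    have : g * f * sh γ (g * f) = sh γ f * (g * sh γ g * f) := by
      simp only [map_mul]; ring
    rw [this]
    exact Q.mul_mem_left _ hg
  · intro g hg
    rw [mem_col] at *
    apply hQ.2.2
    have : g * f * (g * f) = f * (g * g * f) := by ring
    rw [this]
    exact Q.mul_mem_left _ hg

/-- Products of elements of two perfect closures. -/
theorem mul_mem_of_closures {Q : Ideal R} (hQ : IsPerf sh Q) {F G : Set R}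
    (h : ∀ f ∈ F, ∀ g ∈ G, f * g ∈ Q) {u v : R} (hu : u ∈ pc sh F) (hv : v ∈ pc sh G) :
    u * v ∈ Q := by
  have h1 : ∀ g ∈ G, u * g ∈ Q := fun g hg =>
    (pc_le (col_isPerf hQ g) (fun f hf => mem_col.2 (h f hf g hg)) hu : u ∈ col Q g)
  have h2 : v ∈ col Q u := pc_le (col_isPerf hQ u) (fun g hg => by
    rw [SetLike.mem_coe, mem_col, mul_comm]; exact h1 g hg) hv
  rw [mem_col, mul_comm] at h2
  exact h2

/-- The union of the perfect closures of finite subsets. -/
theorem mem_pc_finite {T : Set R} {f : R} (hf : f ∈ pc sh T) :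
    ∃ T₀ : Finset R, (T₀ : Set R) ⊆ T ∧ f ∈ pc sh (T₀ : Set R) := by
  classical
  let U : Ideal R :=
    { carrier := {f | ∃ T₀ : Finset R, (T₀ : Set R) ⊆ T ∧ f ∈ pc sh (T₀ : Set R)}
      zero_mem' := ⟨∅, by simp, Ideal.zero_mem _⟩
      add_mem' := by
        rintro a b ⟨A, hA, ha⟩ ⟨B, hB, hb⟩
        refine ⟨A ∪ B, by simp [hA, hB], ?_⟩
        exact Ideal.add_mem _ (pc_mono (by simp) ha) (pc_mono (by simp) hb)
      smul_mem' := by
        rintro c a ⟨A, hA, ha⟩
        exact ⟨A, hA, Ideal.mul_mem_left _ _ ha⟩ }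
  have hU : IsPerf sh U := by
    refine ⟨?_, ?_, ?_⟩
    · rintro γ f ⟨A, hA, ha⟩
      exact ⟨A, hA, (pc_isPerf sh _).1 γ f ha⟩
    · rintro γ f ⟨A, hA, ha⟩
      exact ⟨A, hA, (pc_isPerf sh _).2.1 γ f ha⟩
    · rintro f ⟨A, hA, ha⟩
      exact ⟨A, hA, (pc_isPerf sh _).2.2 f ha⟩
  have hT : T ⊆ (U : Set R) := by
    intro t ht
    exact ⟨{t}, by simpa using ht, subset_pc sh _ (by simp)⟩
  exact pc_le hU hT hf

/-- A finite set of elements of a perfect closure lies in the closure of a finite subset. -/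
theorem finset_subset_pc_finite {T : Set R} (F : Finset R) (hF : (F : Set R) ⊆ (pc sh T : Set R)) :
    ∃ T₀ : Finset R, (T₀ : Set R) ⊆ T ∧ (F : Set R) ⊆ (pc sh (T₀ : Set R) : Set R) := by
  classical
  induction F using Finset.induction_on with
  | empty => exact ⟨∅, by simp, by simp⟩
  | insert a F ha ih =>
    obtain ⟨T₁, h1, h2⟩ := ih (fun x hx => hF (by simp at hx ⊢; exact Or.inr hx))
    obtain ⟨T₂, h3, h4⟩ := mem_pc_finite (hF (by simp : a ∈ ((insert a F : Finset R) : Set R)))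
    refine ⟨T₁ ∪ T₂, by simp [h1, h3], ?_⟩
    intro x hx
    rcases Finset.mem_insert.1 (by simpa using hx : x ∈ insert a F) with rfl | hx
    · exact pc_mono (by simp) h4
    · exact pc_mono (by simp) (h2 hx)

variable (sh) in
/-- A perfect ideal is finitely generated as such. -/
def FG (P : Ideal R) : Prop := ∃ F : Finset R, (F : Set R) ⊆ (P : Set R) ∧ P ≤ pc sh (F : Set R)

/-- Finitely generated closures can be generated by finitely many of the given elements. -/
theorem exists_finset_of_fg {T : Set R} (h : FG sh (pc sh T)) :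
    ∃ T₀ : Finset R, (T₀ : Set R) ⊆ T ∧ pc sh T ≤ pc sh (T₀ : Set R) := by
  obtain ⟨F, hF, hF'⟩ := h
  obtain ⟨T₀, h1, h2⟩ := finset_subset_pc_finite F hF
  exact ⟨T₀, h1, hF'.trans (pc_le (pc_isPerf sh _) h2)⟩

/-- Among perfect ideals that are not finitely generated there is a maximal one. -/
theorem exists_max (I : Ideal R) (hI : IsPerf sh I) (hI' : ¬ FG sh I) :
    ∃ P : Ideal R, IsPerf sh P ∧ ¬ FG sh P ∧ ∀ Q : Ideal R, IsPerf sh Q → P < Q → FG sh Q := by
  have key : ∀ c ⊆ {P : Ideal R | IsPerf sh P ∧ ¬ FG sh P}, IsChain (· ≤ ·) c → ∀ y ∈ c,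
      ∃ ub ∈ {P : Ideal R | IsPerf sh P ∧ ¬ FG sh P}, ∀ z ∈ c, z ≤ ub := by
    intro c hc hchain y hy
    have hdir : DirectedOn (· ≤ ·) c := hchain.directedOn
    have hne : c.Nonempty := ⟨y, hy⟩
    have hmem : ∀ x, x ∈ sSup c ↔ ∃ J ∈ c, x ∈ J := fun x => by
      exact Submodule.mem_sSup_of_directed hne hdir
    have hperf : IsPerf sh (sSup c) := by
      refine ⟨?_, ?_, ?_⟩
      · intro γ f hf
        obtain ⟨J, hJ, h⟩ := (hmem _).1 hf
        exact (hmem _).2 ⟨J, hJ, (hc hJ).1.1 γ f h⟩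
      · intro γ f hf
        obtain ⟨J, hJ, h⟩ := (hmem _).1 hf
        exact (hmem _).2 ⟨J, hJ, (hc hJ).1.2.1 γ f h⟩
      · intro f hf
        obtain ⟨J, hJ, h⟩ := (hmem _).1 hf
        exact (hmem _).2 ⟨J, hJ, (hc hJ).1.2.2 f h⟩
    refine ⟨sSup c, ⟨hperf, ?_⟩, fun z hz => le_sSup hz⟩
    rintro ⟨F, hF, hF'⟩
    have : ∃ J ∈ c, (F : Set R) ⊆ (J : Set R) := by
      classical
      clear hF'
      induction F using Finset.induction_on with
      | empty => exact ⟨y, hy, by simp⟩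
      | insert a F ha ih =>
        obtain ⟨J₁, hJ₁, h1⟩ := ih (fun x hx => hF (by simp at hx ⊢; exact Or.inr hx))
        obtain ⟨J₂, hJ₂, h2⟩ := (hmem a).1 (hF (by simp))
        obtain ⟨J, hJ, h3, h4⟩ := hdir J₁ hJ₁ J₂ hJ₂
        refine ⟨J, hJ, ?_⟩
        intro x hx
        rcases Finset.mem_insert.1 (by simpa using hx : x ∈ insert a F) with rfl | hx
        · exact h4 h2
        · exact h3 (h1 hx)
    obtain ⟨J, hJ, hFJ⟩ := this
    exact (hc hJ).2 ⟨F, hFJ, (le_sSup hJ).trans hF'⟩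
  obtain ⟨P, -, hP⟩ := zorn_le_nonempty₀ {P : Ideal R | IsPerf sh P ∧ ¬ FG sh P} key I ⟨hI, hI'⟩
  refine ⟨P, hP.prop.1, hP.prop.2, fun Q hQ hlt => ?_⟩
  by_contra hfg
  exact absurd (hP.le_of_ge ⟨hQ, hfg⟩ hlt.le) (not_le_of_gt hlt)

/-- For a maximal perfect ideal that is not finitely generated, adjoining an element gives a
closure generated by finitely many elements of the ideal together with the new element. -/
theorem exists_finset_adjoin {P : Ideal R}
    (hmax : ∀ Q : Ideal R, IsPerf sh Q → P < Q → FG sh Q) {a : R} (ha : a ∉ P) :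
    ∃ G : Finset R, (G : Set R) ⊆ (P : Set R) ∧ P ≤ pc sh (insert a (G : Set R)) := by
  classical
  have hlt : P < pc sh (insert a (P : Set R)) := by
    refine lt_of_le_of_ne (fun x hx => subset_pc sh _ (Or.inr hx)) ?_
    intro h
    exact ha (h ▸ subset_pc sh (insert a (P : Set R)) (Or.inl rfl))
  obtain ⟨T₀, h1, h2⟩ := exists_finset_of_fg (hmax _ (pc_isPerf sh _) hlt)
  refine ⟨T₀.filter (fun x => x ∈ P), fun x hx => by simpa using (Finset.mem_filter.1 hx).2, ?_⟩
  refine hlt.le.trans (h2.trans (pc_mono ?_))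
  intro x hx
  rcases h1 hx with rfl | hxP
  · exact Or.inl rfl
  · exact Or.inr (by simpa using ⟨hx, hxP⟩)

theorem isPrime_of_max {P : Ideal R} (hnf : ¬ FG sh P)
    (hmax : ∀ Q : Ideal R, IsPerf sh Q → P < Q → FG sh Q) : P.IsPrime := by
  classical
  constructor
  · rintro rfl
    refine hnf ⟨{1}, by simp, ?_⟩
    have : (1 : R) ∈ pc sh (({1} : Finset R) : Set R) := subset_pc sh _ (by simp)
    rw [(Ideal.eq_top_iff_one _).2 this]
  · intro a b hab
    by_contra hcon
    push Not at hcon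
    obtain ⟨G₁, h1, h1'⟩ := exists_finset_adjoin hmax hcon.1
    obtain ⟨G₂, h2, h2'⟩ := exists_finset_adjoin hmax hcon.2
    refine hnf ⟨insert (a * b) (G₁ ∪ G₂), ?_, ?_⟩
    · intro x hx
      rcases Finset.mem_insert.1 (by simpa using hx : x ∈ insert (a * b) (G₁ ∪ G₂)) with rfl | hx
      · exact hab
      · rcases Finset.mem_union.1 hx with hx | hx
        · exact h1 hx
        · exact h2 hx
    · set Q := pc sh ((insert (a * b) (G₁ ∪ G₂) : Finset R) : Set R) with hQdef
      have hQ : IsPerf sh Q := pc_isPerf sh _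
      have hsub : ∀ x ∈ (insert (a * b) (G₁ ∪ G₂) : Finset R), x ∈ Q :=
        fun x hx => subset_pc sh _ (by simpa using hx)
      intro p hp
      apply hQ.2.2
      refine mul_mem_of_closures hQ (F := insert a (G₁ : Set R)) (G := insert b (G₂ : Set R)) ?_
        (h1' hp) (h2' hp)
      rintro f (rfl | hf) g (rfl | hg)
      · exact hsub _ (by simp)
      · exact Q.mul_mem_left _ (hsub _ (by simp at hg ⊢; tauto))
      · exact Q.mul_mem_right _ (hsub _ (by simp at hf ⊢; tauto))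
      · exact Q.mul_mem_right _ (hsub _ (by simp at hf ⊢; tauto))

end Perf

end Pool.Agent.H412.EqN
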